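import Mathlib
import Pool.Agent.H16.GForm2

set_option autoImplicit false

namespace Pool.Agent.Results.MP_8f9e48_lc.UnaryComplete

open Pool.Agent.H16.GForm

/-- For every unary grammar `G` the family of `G` is unary-complete: if a grammar `H` with at least two terminal
letters has the same family, then some `a`-restriction of `H` has that family too. -/
theorem result (G : Gr) (hG : G.WF) (h1 : G.T.card = 1) (H : Gr) (hH : H.WF) (h2 : 2 ≤ H.T.card)
    (e : H.fam = G.fam) : ∃ a ∈ H.T, (H.restrict a).fam = G.fam :=
  main G H hG hH h1 (Finset.card_pos.1 (by omega)) e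

end Pool.Agent.Results.MP_8f9e48_lc.UnaryComplete
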